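import Mathlib
import Pool.Agent.H11.Aut6

set_option autoImplicit false

namespace H11.Aut

/-- an FA-presentation of the integers with addition, over the alphabet `α` -/
structure PresZ (α : Type) where
  L : Language α
  ψ : List α → ℤ
  reg : L.IsRegular
  surj : ∀ x, ∃ u ∈ L, ψ u = x
  eq : Sync fun u v => u ∈ L ∧ v ∈ L ∧ ψ u = ψ v
  add : Sync3 fun u v w => u ∈ L ∧ v ∈ L ∧ w ∈ L ∧ ψ u + ψ v = ψ w

/-- length of a shortest normal form of `x` -/
noncomputable def PresZ.minLen {α : Type} (P : PresZ α) (x : ℤ) : ℕ :=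
  sInf {k | ∃ v ∈ P.L, P.ψ v = x ∧ v.length = k}

/-- the values whose maximum is the compressibility rate of `P` relative to `P0` at `n` -/
def rateSet {γ α : Type} (P : PresZ γ) (P0 : PresZ α) (n : ℕ) : Set ℕ :=
  {m | ∃ w ∈ P.L, w.length ≤ n ∧ m = P0.minLen (P.ψ w)}

end H11.Aut

namespace Pool.Agent.Results.MP_868060_lc.Linear
open H11.Aut

theorem result (γ α : Type) [Finite γ] [Finite α] (P : PresZ γ) (P0 : PresZ α) :
    ∃ a b : ℕ, ∀ n, ∀ m ∈ rateSet P P0 n, m ≤ a * n + b := by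
  haveI := Fintype.ofFinite γ
  obtain ⟨a, b, h⟩ := az_exp (fun w => w ∈ P.L) P.ψ P.surj (fun _ i j => P.eq.fs i j)
    (fun _ i j k => P.add.fs i j k)
  obtain ⟨n0, C, h0⟩ := az_log (fun w => w ∈ P0.L) P0.ψ P0.surj (fun _ i j k => P0.add.fs i j k)
  refine ⟨C * a, n0 + C * b, ?_⟩
  rintro n _ ⟨w, h1, h2, rfl⟩
  obtain ⟨v, v1, v2, v3⟩ := h0 _ _ (h n _ ⟨w, h1, h2, rfl⟩)
  have : P0.minLen (P.ψ w) ≤ v.length := Nat.sInf_le ⟨v, v1, v3, rfl⟩
  exact this.trans (v2.trans (le_of_eq (by ring)))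

end Pool.Agent.Results.MP_868060_lc.Linear
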